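import Pool.Agent.N287.ZM.GenR

/-!
# Block unipotent subgroups
-/

set_option autoImplicit false

namespace Pool.Agent.N287.ZM

open Matrix Module Pool.Agent.H185.ZM

section blk

variable {n : ℕ} {R : Type} [CommRing R]

/-- the block `B` placed in rows `< a` and columns `≥ a` -/
def bl (a : ℕ) (B : Fin n → Fin n → R) : Matrix (Fin n) (Fin n) R :=
  Matrix.of fun i j => if i.val < a ∧ a ≤ j.val then B i j else 0

lemma bl_apply (a : ℕ) (B : Fin n → Fin n → R) (i j : Fin n) :
    bl a B i j = if i.val < a ∧ a ≤ j.val then B i j else 0 := rfl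

lemma bl_mul (a : ℕ) (B C : Fin n → Fin n → R) : bl a B * bl a C = 0 := by
  ext i j
  rw [Matrix.mul_apply, Matrix.zero_apply]
  apply Finset.sum_eq_zero
  intro l _
  rw [bl_apply, bl_apply]
  by_cases h : l.val < a
  · rw [if_neg (by omega), zero_mul]
  · rw [if_neg (c := l.val < a ∧ a ≤ j.val) (by omega), mul_zero]

lemma bl_add (a : ℕ) (B C : Fin n → Fin n → R) : bl a (B + C) = bl a B + bl a C := by
  ext i j
  rw [Matrix.add_apply, bl_apply, bl_apply, bl_apply]
  split_ifs
  · rfl
  · simp

lemma bl_det (a : ℕ) (B : Fin n → Fin n → R) : (1 + bl a B).det = 1 := by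
  rw [det_of_isUpperTriangular]
  · apply Finset.prod_eq_one
    intro i _
    rw [Matrix.add_apply, one_apply_eq, bl_apply, if_neg (by omega), add_zero]
  · intro i j hij
    have hij' : j < i := hij
    rw [Matrix.add_apply, one_apply_ne hij'.ne', bl_apply, if_neg, add_zero]
    have : j.val < i.val := hij'
    omega

/-- the block matrices as elements of `SL` -/
def blk (a : ℕ) (B : Fin n → Fin n → R) : Matrix.SpecialLinearGroup (Fin n) R :=
  ⟨1 + bl a B, bl_det a B⟩

lemma blk_coe (a : ℕ) (B : Fin n → Fin n → R) :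
    ((blk a B : Matrix.SpecialLinearGroup (Fin n) R) : Matrix (Fin n) (Fin n) R) = 1 + bl a B := rfl

lemma blk_add (a : ℕ) (B C : Fin n → Fin n → R) : blk a (B + C) = blk a B * blk a C := by
  apply Subtype.ext
  rw [Matrix.SpecialLinearGroup.coe_mul, blk_coe, blk_coe, blk_coe, bl_add, add_mul, mul_add,
    mul_add, bl_mul]
  simp
  abel

lemma blk_zero (a : ℕ) : blk a (0 : Fin n → Fin n → R) = 1 := by
  have h := blk_add a (0 : Fin n → Fin n → R) 0
  rw [add_zero] at h
  exact mul_eq_left.1 h.symm

lemma bl_single (a : ℕ) (B : Fin n → Fin n → R) {j l : Fin n} (hj : a ≤ j.val) (hl : a ≤ l.val) :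
    bl a B * single j l (1 : R) = bl a (fun i c => if c = l then B i j else 0) := by
  ext i c
  rw [Matrix.mul_apply, Finset.sum_eq_single j]
  · rw [single_apply, bl_apply, bl_apply]
    by_cases h1 : l = c
    · subst h1
      rw [if_pos (c := j = j ∧ l = l) ⟨rfl, rfl⟩, mul_one, if_pos (c := l = l) rfl]
      by_cases h2 : i.val < a
      · rw [if_pos ⟨h2, hj⟩, if_pos ⟨h2, hl⟩]
      · rw [if_neg (by omega), if_neg (by omega)]
    · rw [if_neg (c := j = j ∧ l = c) (fun h => h1 h.2), mul_zero,
        if_neg (c := c = l) (fun h => h1 h.symm)]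
      simp
  · intro b _ hb
    rw [single_apply, if_neg (c := j = b ∧ l = c) (fun h => hb h.1.symm), mul_zero]
  · intro h; exact absurd (Finset.mem_univ _) h

lemma single_bl (a : ℕ) (B : Fin n → Fin n → R) {k i : Fin n} (hk : k.val < a) (hi : i.val < a) :
    single k i (1 : R) * bl a B = bl a (fun r c => if r = k then B i c else 0) := by
  ext r c
  rw [Matrix.mul_apply, Finset.sum_eq_single i]
  · rw [single_apply, bl_apply, bl_apply]
    by_cases h1 : k = r
    · subst h1
      rw [if_pos ⟨rfl, rfl⟩, one_mul, if_pos rfl]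
      by_cases h2 : a ≤ c.val
      · rw [if_pos ⟨hi, h2⟩, if_pos ⟨hk, h2⟩]
      · rw [if_neg (by omega), if_neg (by omega)]
    · rw [if_neg (fun h => h1 h.1), zero_mul, if_neg (c := r = k) (fun h => h1 h.symm)]
      simp
  · intro b _ hb
    rw [single_apply, if_neg (fun h => hb h.2.symm), zero_mul]
  · intro h; exact absurd (Finset.mem_univ _) h

lemma single_bl_zero (a : ℕ) (B : Fin n → Fin n → R) {j l : Fin n} (hl : a ≤ l.val) :
    single j l (1 : R) * bl a B = 0 := by
  ext r c
  rw [Matrix.mul_apply, Matrix.zero_apply]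
  apply Finset.sum_eq_zero
  intro b _
  rw [single_apply, bl_apply]
  by_cases h : l = b
  · subst h
    rw [if_neg (c := l.val < a ∧ a ≤ c.val) (by omega), mul_zero]
  · rw [if_neg (fun h' => h h'.2), zero_mul]

lemma bl_single_zero (a : ℕ) (B : Fin n → Fin n → R) {k i : Fin n} (hk : k.val < a) :
    bl a B * single k i (1 : R) = 0 := by
  ext r c
  rw [Matrix.mul_apply, Matrix.zero_apply]
  apply Finset.sum_eq_zero
  intro b _
  rw [single_apply, bl_apply]
  by_cases h : k = b
  · subst h
    rw [if_neg (c := r.val < a ∧ a ≤ k.val) (by omega), zero_mul]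
  · rw [if_neg (c := k = b ∧ i = c) (fun h' => h h'.1), mul_zero]

lemma col_single (a : ℕ) (C : Fin n → R) {j l : Fin n} (hjl : j ≠ l) :
    bl a (fun i c => if c = l then C i else 0) * single j l (1 : R) = 0 := by
  ext r c
  rw [Matrix.mul_apply, Matrix.zero_apply]
  apply Finset.sum_eq_zero
  intro b _
  rw [single_apply, bl_apply]
  by_cases h : j = b
  · subst h
    rw [if_neg (c := j = l) hjl]
    simp
  · rw [if_neg (c := j = b ∧ l = c) (fun h' => h h'.1), mul_zero]

variable (N : Subgroup (Matrix.SpecialLinearGroup (Fin n) R)) [hN : N.Normal]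

include hN in
lemma blk_col {a : ℕ} {B : Fin n → Fin n → R} (hB : blk a B ∈ N) {j l : Fin n} (hjl : j ≠ l)
    (hj : a ≤ j.val) (hl : a ≤ l.val) : blk a (fun i c => if c = l then B i j else 0) ∈ N := by
  have h1 := comm_mem N hB (y := el hjl (1 : R))
  have h2 : blk a B * el hjl (1 : R) =
      blk a (fun i c => if c = l then B i j else 0) * (el hjl 1 * blk a B) := by
    apply Subtype.ext
    simp only [Matrix.SpecialLinearGroup.coe_mul, el_coe, blk_coe]
    simp only [add_mul, mul_add, one_mul, mul_one, bl_single a B hj hl, single_bl_zero a B hl,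
      add_zero, bl_mul, col_single a (fun i => B i j) hjl]
    abel
  rw [h2] at h1
  have h3 : blk a (fun i c => if c = l then B i j else 0) * (el hjl (1 : R) * blk a B) *
      (blk a B)⁻¹ * (el hjl (1 : R))⁻¹ = blk a (fun i c => if c = l then B i j else 0) := by group
  rwa [h3] at h1

include hN in
lemma blk_row {a : ℕ} {B : Fin n → Fin n → R} (hB : blk a B ∈ N) {k i : Fin n} (hki : k ≠ i)
    (hk : k.val < a) (hi : i.val < a) : blk a (fun r c => if r = k then B i c else 0) ∈ N := by
  have h1 := comm_mem' N hB (x := el hki (1 : R))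
  have h2 : el hki (1 : R) * blk a B =
      blk a (fun r c => if r = k then B i c else 0) * (blk a B * el hki 1) := by
    apply Subtype.ext
    simp only [Matrix.SpecialLinearGroup.coe_mul, el_coe, blk_coe]
    simp only [add_mul, mul_add, one_mul, mul_one, single_bl a B hk hi, bl_single_zero a _ hk,
      add_zero, bl_mul]
    abel
  rw [h2] at h1
  have h3 : blk a (fun r c => if r = k then B i c else 0) * (blk a B * el hki 1) *
      (el hki (1 : R))⁻¹ * (blk a B)⁻¹ = blk a (fun r c => if r = k then B i c else 0) := by group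
  rwa [h3] at h1

lemma blk_el {a : ℕ} {k l : Fin n} (hkl : k ≠ l) (hk : k.val < a) (hl : a ≤ l.val) (x : R) :
    blk a (fun r c => if r = k then (if c = l then x else 0) else 0) = el hkl x := by
  apply Subtype.ext
  rw [blk_coe, el_coe]
  congr 1
  ext r c
  rw [bl_apply, single_apply]
  by_cases h1 : k = r ∧ l = c
  · obtain ⟨rfl, rfl⟩ := h1
    rw [if_pos ⟨hk, hl⟩, if_pos rfl, if_pos rfl, if_pos ⟨rfl, rfl⟩]
  · rw [if_neg h1]
    by_cases h2 : r = k
    · rw [if_pos h2, if_neg (c := c = l) (fun h => h1 ⟨h2.symm, h.symm⟩)]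
      simp
    · rw [if_neg h2]
      simp

/-- the entries of a block matrix in `N` lie in the ideal of `N` -/
theorem blk_ideal (hn : 3 ≤ n) {a : ℕ} (ha : 2 ≤ a) (ha' : a + 2 ≤ n) {B : Fin n → Fin n → R}
    (hB : blk a B ∈ N) {i j : Fin n} (hi : i.val < a) (hj : a ≤ j.val) :
    B i j ∈ idealOf N hn := by
  obtain ⟨k, hki, hk⟩ : ∃ k : Fin n, k ≠ i ∧ k.val < a := by
    by_cases h : i.val = 0
    · exact ⟨⟨1, by omega⟩, fun e => by rw [← e] at h; simp at h, by show 1 < a; omega⟩
    · exact ⟨⟨0, by omega⟩, fun e => by rw [← e] at h; simp at h, by show 0 < a; omega⟩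
  obtain ⟨l, hjl, hl⟩ : ∃ l : Fin n, j ≠ l ∧ a ≤ l.val := by
    by_cases h : j.val = a
    · exact ⟨⟨a + 1, by omega⟩, fun e => by rw [e] at h; simp at h, by show a ≤ a + 1; omega⟩
    · exact ⟨⟨a, by omega⟩, fun e => by rw [e] at h; simp at h, by show a ≤ a; omega⟩
  have h1 := blk_row N (blk_col N hB hjl hj hl) hki hk hi
  have hkl : k ≠ l := fun e => by rw [e] at hk; omega
  have h2 := blk_el (R := R) hkl hk hl (B i j)
  rw [h2] at h1
  exact mem_idealOf N hn hkl h1

/-- conversely -/
theorem blk_mem (hn : 3 ≤ n) {a : ℕ} (B : Fin n × Fin n → R)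
    (hB : ∀ i j : Fin n, i.val < a → a ≤ j.val → B (i, j) ∈ idealOf N hn) :
    blk a (fun i j => B (i, j)) ∈ N := by
  have key : ∀ S : Finset (Fin n × Fin n), blk a (fun i j => if (i, j) ∈ S then B (i, j) else 0) ∈ N := by
    intro S
    classical
    induction S using Finset.induction_on with
    | empty =>
      have : (fun i j : Fin n => if (i, j) ∈ (∅ : Finset (Fin n × Fin n)) then B (i, j) else 0) =
          (0 : Fin n → Fin n → R) := by
        funext i j
        simp
      rw [this, blk_zero]
      exact N.one_mem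
    | insert p S hp ih =>
      obtain ⟨k, l⟩ := p
      have h1 : (fun i j : Fin n => if (i, j) ∈ insert (k, l) S then B (i, j) else 0) =
          (fun i j => if i = k then (if j = l then B (k, l) else 0) else 0) +
            (fun i j : Fin n => if (i, j) ∈ S then B (i, j) else 0) := by
        funext i j
        show _ = (if i = k then (if j = l then B (k, l) else 0) else 0) +
          (if (i, j) ∈ S then B (i, j) else 0)
        by_cases h2 : i = k ∧ j = l
        · obtain ⟨rfl, rfl⟩ := h2
          rw [if_pos (Finset.mem_insert_self _ _), if_pos rfl, if_pos rfl, if_neg hp, add_zero]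
        · have h3 : ((i, j) ∈ insert (k, l) S) ↔ (i, j) ∈ S := by
            rw [Finset.mem_insert]
            constructor
            · rintro (h | h)
              · exact absurd ⟨(Prod.mk.inj h).1, (Prod.mk.inj h).2⟩ h2
              · exact h
            · exact Or.inr
          have h4 : (if i = k then (if j = l then B (k, l) else 0) else 0) = 0 := by
            by_cases h5 : i = k
            · rw [if_pos h5, if_neg (fun h6 => h2 ⟨h5, h6⟩)]
            · rw [if_neg h5]
          rw [h4, zero_add]
          simp only [h3]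
      rw [h1, blk_add]
      refine N.mul_mem ?_ ih
      by_cases h2 : k.val < a ∧ a ≤ l.val
      · have hkl : k ≠ l := fun e => by rw [e] at h2; omega
        rw [blk_el hkl h2.1 h2.2]
        exact hB k l h2.1 h2.2 k l hkl
      · have h3 : blk a (fun i j : Fin n => if i = k then (if j = l then B (k, l) else 0) else 0) =
            1 := by
          apply Subtype.ext
          rw [blk_coe, Matrix.SpecialLinearGroup.coe_one]
          have : bl a (fun i j : Fin n => if i = k then (if j = l then B (k, l) else 0) else 0) =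
              0 := by
            ext r c
            rw [bl_apply, Matrix.zero_apply]
            by_cases h5 : r = k
            · by_cases h6 : c = l
              · rw [h5, h6, if_neg h2]
              · rw [if_neg (c := c = l) h6]
                simp
            · rw [if_neg (c := r = k) h5]
              simp
          rw [this, add_zero]
        rw [h3]
        exact N.one_mem
  have h1 := key Finset.univ
  have h2 : (fun i j : Fin n => if (i, j) ∈ (Finset.univ : Finset (Fin n × Fin n)) then B (i, j)
      else 0) = (fun i j => B (i, j)) := by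
    funext i j
    rw [if_pos (Finset.mem_univ _)]
  rwa [h2] at h1

end blk

section act

open scoped Manifold ContDiff

variable {E : Type} [NormedAddCommGroup E] [NormedSpace ℝ E] [FiniteDimensional ℝ E]
  {M : Type} [TopologicalSpace M] [ChartedSpace E M] [IsManifold 𝓘(ℝ, E) ∞ M]
  {R : Type} [CommRing R]

/-- the positions of the block -/
abbrev Pos (n a : ℕ) : Type := {p : Fin n × Fin n // p.1.val < a ∧ a ≤ p.2.val}

lemma card_pos {n a : ℕ} (h : a ≤ n) : Nat.card (Pos n a) = a * (n - a) := by
  have e : Pos n a ≃ {i : Fin n // i.val < a} × {i : Fin n // a ≤ i.val} :=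
    { toFun := fun p => ⟨⟨p.1.1, p.2.1⟩, ⟨p.1.2, p.2.2⟩⟩
      invFun := fun p => ⟨(p.1.1, p.2.1), p.1.2, p.2.2⟩
      left_inv := fun _ => rfl
      right_inv := fun _ => rfl }
  rw [Nat.card_congr e, Nat.card_prod]
  have h1 : (Finset.univ.filter (fun i : Fin n => i.val < a)).card = min n a :=
    Fin.card_filter_val_lt
  have h2 := Finset.card_filter_add_card_filter_not (s := (Finset.univ : Finset (Fin n)))
    (fun i => i.val < a)
  simp only [not_lt] at h2
  rw [h1, Finset.card_univ, Fintype.card_fin] at h2
  congr 1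
  · rw [Nat.card_eq_fintype_card, Fintype.card_subtype, h1]
    omega
  · rw [Nat.card_eq_fintype_card, Fintype.card_subtype]
    omega

/-- extension by zero of a function on the positions, with values lifted from `𝔽₂` to `R` -/
def lb (R : Type) [CommRing R] {n a : ℕ} (f : Pos n a → ZMod 2) (p : Fin n × Fin n) : R :=
  if h : p.1.val < a ∧ a ≤ p.2.val then ((f ⟨p, h⟩).val : R) else 0

/-- if `2` lies in the ideal of the kernel and the block group is too large, the ideal of the kernel
is the whole ring -/
theorem one_mem {n : ℕ} (hn : 3 ≤ n) {c : ℕ} (hc : 2 ≤ c) (hc' : c + 2 ≤ n) [CompactSpace M]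
    [T2Space M] [ConnectedSpace M] {a : Matrix.SpecialLinearGroup (Fin n) R → M → M}
    (ha : SmoothAction E a) (h2 : (2 : R) ∈ idealOf (actKer ha) hn)
    (hdvd : ¬ ((2 : ℤ) ^ (c * (n - c)) ∣ 2 ^ finrank ℝ E * Pool.Agent.Helper381.eulerChar M)) :
    (1 : R) ∈ idealOf (actKer ha) hn := by
  classical
  set N := actKer ha with hN
  by_contra h10
  have hadd : ∀ x y : ZMod 2, ∃ t, ((x + y).val : R) - ((x.val : R) + (y.val : R)) = 2 * t := by
    intro x y
    have h5 : ∀ u v : ZMod 2, ∃ s : Fin 2, u.val + v.val = (u + v).val + 2 * s.val := by decide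
    obtain ⟨s, hs⟩ := h5 x y
    refine ⟨-((s.val : ℕ) : R), ?_⟩
    have hs' := congrArg (fun w : ℕ => (w : R)) hs
    push_cast at hs'
    linear_combination (-1 : R) * hs'
  let b : Multiplicative (Pos n c → ZMod 2) → M → M :=
    fun p => a (blk c (fun i j => lb R p.toAdd (i, j)))
  have hb : SmoothAction E b :=
    { one := fun y => by
        show a (blk c (fun i j => lb R (0 : Pos n c → ZMod 2) (i, j))) y = y
        have : (fun i j : Fin n => lb R (0 : Pos n c → ZMod 2) (i, j)) = 0 := by
          funext i j
          unfold lb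
          split_ifs
          · show (((0 : ZMod 2).val : ℕ) : R) = 0
            simp
          · rfl
        rw [this, blk_zero]
        exact ha.one y
      mul := fun p q y => by
        show a (blk c (fun i j => lb R (p.toAdd + q.toAdd) (i, j))) y = _
        have h3 : (fun i j : Fin n => lb R (p.toAdd + q.toAdd) (i, j)) =
            (fun i j => (fun w : Fin n × Fin n => lb R (p.toAdd + q.toAdd) w -
              (lb R p.toAdd w + lb R q.toAdd w)) (i, j)) +
              ((fun i j => lb R p.toAdd (i, j)) + (fun i j => lb R q.toAdd (i, j))) := by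
          funext i j
          simp only [Pi.add_apply]
          ring
        rw [h3, blk_add, blk_add, ha.mul, ha.mul]
        have h4 : blk c (fun i j => (fun w : Fin n × Fin n => lb R (p.toAdd + q.toAdd) w -
              (lb R p.toAdd w + lb R q.toAdd w)) (i, j)) ∈ N := by
          refine blk_mem N hn (fun w : Fin n × Fin n => lb R (p.toAdd + q.toAdd) w -
            (lb R p.toAdd w + lb R q.toAdd w)) ?_
          intro i j hi hj
          show lb R (p.toAdd + q.toAdd) (i, j) - (lb R p.toAdd (i, j) + lb R q.toAdd (i, j)) ∈ _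
          unfold lb
          rw [dif_pos ⟨hi, hj⟩, dif_pos ⟨hi, hj⟩, dif_pos ⟨hi, hj⟩]
          obtain ⟨t, ht⟩ := hadd (p.toAdd ⟨(i, j), hi, hj⟩) (q.toAdd ⟨(i, j), hi, hj⟩)
          rw [Pi.add_apply, ht]
          exact Ideal.mul_mem_right _ _ h2
        exact h4 _
      smooth := fun p => ha.smooth _ }
  have h1 := abelian_dvd (P := Multiplicative (Pos n c → ZMod 2))
    (fun p => by
      show (4 : ℕ) • p.toAdd = 0
      funext j
      have : ∀ u : ZMod 2, (4 : ℕ) • u = 0 := by decide
      exact this _) hb (fun p hp => by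
      have h3 : blk c (fun i j => lb R p.toAdd (i, j)) ∈ N := hp
      show p.toAdd = 0
      funext l
      obtain ⟨⟨i, j⟩, hi, hj⟩ := l
      have h4 := blk_ideal N hn hc hc' h3 hi hj
      have h5 : lb R p.toAdd (i, j) = ((p.toAdd ⟨(i, j), hi, hj⟩).val : R) := by
        unfold lb
        exact dif_pos (c := i.val < c ∧ c ≤ j.val) ⟨hi, hj⟩
      rw [h5] at h4
      have h6 : ∀ u : ZMod 2, u = 0 ∨ u = 1 := by decide
      rcases h6 (p.toAdd ⟨(i, j), hi, hj⟩) with h | h
      · exact h
      · exfalso
        apply h10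
        rw [h] at h4
        have h7 : ((((1 : ZMod 2).val : ℕ)) : R) = 1 := by
          rw [show (1 : ZMod 2).val = 1 from rfl]
          simp
        rwa [h7] at h4)
  apply hdvd
  have hcard : Nat.card (Multiplicative (Pos n c → ZMod 2)) = 2 ^ (c * (n - c)) := by
    rw [Nat.card_congr Multiplicative.toAdd, Nat.card_fun, card_pos (by omega)]
    simp
  rw [hcard] at h1
  exact_mod_cast h1

end act

end Pool.Agent.N287.ZM
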