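import Pool.Agent.H185.ZM.Cyc
import Pool.Agent.H185.ZM.Hom

/-!
# Actions of `SL_n(R)`, `R` a commutative ring containing a square root of `-1`
-/

set_option autoImplicit false

namespace Pool.Agent.N287.ZM

open Matrix Module Pool.Agent.H185.ZM

/-- The image of the elementary group modulo a normal subgroup whose ideal has index at most two
is finite. -/
theorem finite_EE {n : ℕ} (hn : 3 ≤ n) {R : Type} [CommRing R]
    (N : Subgroup (Matrix.SpecialLinearGroup (Fin n) R)) [hN : N.Normal]
    (h2 : (2 : R) ∈ idealOf N hn) (h1 : ∀ c : R, c ∈ idealOf N hn ∨ c - 1 ∈ idealOf N hn) :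
    ((fun g : Matrix.SpecialLinearGroup (Fin n) R => (g : Matrix.SpecialLinearGroup (Fin n) R ⧸ N)) ''
      {g | g ∈ EE n R}).Finite := by
  classical
  let q : Matrix.SpecialLinearGroup (Fin n) R →* Matrix.SpecialLinearGroup (Fin n) R ⧸ N :=
    QuotientGroup.mk' N
  have hq : ∀ g, g ∈ N → q g = 1 := fun g hg => (QuotientGroup.eq_one_iff g).2 hg
  let x : Fin n → Fin n → Matrix.SpecialLinearGroup (Fin n) R ⧸ N := fun i j =>
    if h : i ≠ j then q (el h 1) else 1
  have hx : ∀ {i j : Fin n} (h : i ≠ j), x i j = q (el h 1) := fun h => dif_pos h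
  have hneg : ∀ {i j : Fin n} (h : i ≠ j), q (el h (-1)) = q (el h 1) := by
    intro i j h
    have h3 : el h (1 : R) = el h (-1) * el h 2 := by rw [← el_add]; norm_num
    rw [h3, map_mul, hq _ (h2 i j h), mul_one]
  have hrel : Rel x := by
    constructor
    · intro i j h
      rw [hx h, ← map_mul, ← el_add, one_add_one_eq_two]
      exact hq _ (h2 i j h)
    · intro i j l hij hjl hil
      rw [hx hij, hx hjl, hx hil, ← map_mul, el_comm hij hjl hil, mul_one, map_mul, map_mul]
    · intro i j k l hij hkl hjk hil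
      rw [hx hij, hx hkl, ← map_mul, el_commute hij hkl hjk hil, map_mul]
    · intro i j h
      rw [hx h, hx h.symm]
      have h3 := congrArg q (el_braid (R := R) h)
      simp only [map_mul, hneg] at h3
      exact h3
  refine (finite_st n x hrel).subset ?_
  have h3 : EE n R ≤ (Subgroup.closure {g | ∃ i j, i ≠ j ∧ x i j = g}).comap q := by
    unfold EE
    rw [Subgroup.closure_le]
    rintro _ ⟨i, j, h, c, rfl⟩
    show q (el h c) ∈ Subgroup.closure {g | ∃ i j, i ≠ j ∧ x i j = g}
    rcases h1 c with hc | hc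
    · rw [hq _ (hc i j h)]; exact one_mem _
    · have h4 : el h c = el h (c - 1) * el h 1 := by rw [← el_add, sub_add_cancel]
      rw [h4, map_mul, hq _ (hc i j h), one_mul, ← hx h]
      exact Subgroup.subset_closure ⟨i, j, h, rfl⟩
  rintro _ ⟨g, hg, rfl⟩
  exact h3 hg

section main

open scoped Manifold ContDiff

variable {E : Type} [NormedAddCommGroup E] [NormedSpace ℝ E] [FiniteDimensional ℝ E]
  {M : Type} [TopologicalSpace M] [ChartedSpace E M] [IsManifold 𝓘(ℝ, E) ∞ M]
  {R : Type} [CommRing R]

/-- the ideal of the kernel contains `2` -/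
theorem two_mem (z : R) (hz : z * z = -1) {k : ℕ} (hk : 2 ≤ k) [CompactSpace M] [T2Space M]
    [ConnectedSpace M] {a : Matrix.SpecialLinearGroup (Fin (k + 1)) R → M → M}
    (ha : SmoothAction E a)
    (hdvd : ¬ ((4 : ℤ) ^ k ∣ (Nat.gcd (k + 1) 4 : ℤ) *
      (2 ^ finrank ℝ E * Pool.Agent.Helper381.eulerChar M))) :
    (2 : R) ∈ idealOf (actKer ha) (by omega : 3 ≤ k + 1) := by
  classical
  have hn : 3 ≤ k + 1 := by omega
  have hz4 : z ^ 4 = 1 := by
    have : z ^ 4 = (z * z) * (z * z) := by ring
    rw [this, hz]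
    ring
  set N := actKer ha with hN
  have h1 := abelian_dvd_ker (P := Fin k → Multiplicative (ZMod 4))
    (fun p => by
      funext j
      have : ∀ u : Multiplicative (ZMod 4), u ^ 4 = 1 := by decide
      exact this _) (ha.comp (dmt k (zp z hz4)))
  set K := actKer (ha.comp (dmt k (zp z hz4))) with hK
  have hc : Nat.card (Fin k → Multiplicative (ZMod 4)) = 4 ^ k := by simp
  rw [hc] at h1
  by_cases hsc : ∀ p ∈ K, ∀ i j, uv p i = uv p j
  · exfalso
    apply hdvd
    have h3 := card_scal hk K hsc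
    have hcz : Nat.card (Multiplicative (ZMod 4)) = 4 := by simp
    rw [hcz] at h3
    have h4 : (Nat.card K : ℤ) ∣ (Nat.gcd (k + 1) 4 : ℤ) := by exact_mod_cast h3
    have h5 := h1.trans (mul_dvd_mul_right h4 _)
    exact_mod_cast h5
  · push Not at hsc
    obtain ⟨p, hp, i, j, hij⟩ := hsc
    have hij' : i ≠ j := fun h => hij (by rw [h])
    have hpN : dmt k (zp z hz4) p ∈ N := hp
    have h3 := mem_idealOf_diag N hn hij' hpN (fun i => zp z hz4 (uv p i)) rfl
      (zp z hz4 (uv p i / uv p j)) (by rw [← map_mul, div_mul_cancel])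
    have key : ∀ u : Multiplicative (ZMod 4), u ≠ 1 → ∃ t, (zp z hz4 u - 1) * t = 2 := by
      intro u hu
      have h5 : u.toAdd = 1 ∨ u.toAdd = 2 ∨ u.toAdd = 3 := by
        have : ∀ w : ZMod 4, w ≠ 0 → w = 1 ∨ w = 2 ∨ w = 3 := by decide
        exact this _ hu
      have h6 : zp z hz4 u = z ^ (u.toAdd).val := rfl
      rcases h5 with h5 | h5 | h5
      · refine ⟨-(z + 1), ?_⟩
        rw [h6, h5, show (1 : ZMod 4).val = 1 from rfl]
        linear_combination (-1 : R) * hz
      · refine ⟨-1, ?_⟩
        rw [h6, h5, show (2 : ZMod 4).val = 2 from rfl]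
        linear_combination (-1 : R) * hz
      · refine ⟨z - 1, ?_⟩
        rw [h6, h5, show (3 : ZMod 4).val = 3 from rfl]
        linear_combination (z * z - z - 1) * hz
    obtain ⟨t, ht⟩ := key (uv p i / uv p j) (by rw [Ne, div_eq_one]; exact hij)
    rw [← ht]
    exact Ideal.mul_mem_right _ _ h3

/-- the ideal of the kernel has index at most two -/
theorem index_two {k : ℕ} (hk : 2 ≤ k) [CompactSpace M] [T2Space M] [ConnectedSpace M]
    {a : Matrix.SpecialLinearGroup (Fin (k + 1)) R → M → M} (ha : SmoothAction E a)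
    (h2 : (2 : R) ∈ idealOf (actKer ha) (by omega : 3 ≤ k + 1))
    (hdvd : ¬ ((4 : ℤ) ^ k ∣ 2 ^ finrank ℝ E * Pool.Agent.Helper381.eulerChar M)) (c : R) :
    c ∈ idealOf (actKer ha) (by omega : 3 ≤ k + 1) ∨
      c - 1 ∈ idealOf (actKer ha) (by omega : 3 ≤ k + 1) := by
  classical
  have hn : 3 ≤ k + 1 := by omega
  set N := actKer ha with hN
  by_contra hcon
  push Not at hcon
  obtain ⟨hc0, hc1⟩ := hcon
  have h10 : (1 : R) ∉ idealOf N hn := fun h => hc0 (by
    have := Ideal.mul_mem_left _ c h
    rwa [mul_one] at this)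
  have hc2 : c + 1 ∉ idealOf N hn := fun h => hc1 (by
    have := Ideal.sub_mem _ h h2
    have e : c + 1 - 2 = c - 1 := by ring
    rwa [e] at this)
  let lf : ZMod 2 × ZMod 2 → R := fun x => (x.1.val : R) + (x.2.val : R) * c
  have hne : ∀ x, lf x ∈ idealOf N hn → x = 0 := by
    intro x hx
    have h5 : ∀ x : ZMod 2 × ZMod 2, x = 0 ∨ x = (1, 0) ∨ x = (0, 1) ∨ x = (1, 1) := by decide
    rcases h5 x with h | h | h | h
    · exact h
    · exfalso
      apply h10
      have e : lf x = 1 := by
        rw [h]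
        show (((1 : ZMod 2).val : ℕ) : R) + (((0 : ZMod 2).val : ℕ) : R) * c = 1
        rw [show (1 : ZMod 2).val = 1 from rfl, show (0 : ZMod 2).val = 0 from rfl]
        push_cast
        ring
      rwa [e] at hx
    · exfalso
      apply hc0
      have e : lf x = c := by
        rw [h]
        show (((0 : ZMod 2).val : ℕ) : R) + (((1 : ZMod 2).val : ℕ) : R) * c = c
        rw [show (1 : ZMod 2).val = 1 from rfl, show (0 : ZMod 2).val = 0 from rfl]
        push_cast
        ring
      rwa [e] at hx
    · exfalso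
      apply hc2
      have e : lf x = c + 1 := by
        rw [h]
        show (((1 : ZMod 2).val : ℕ) : R) + (((1 : ZMod 2).val : ℕ) : R) * c = c + 1
        rw [show (1 : ZMod 2).val = 1 from rfl]
        push_cast
        ring
      rwa [e] at hx
  have hadd : ∀ x y, ∃ t, lf (x + y) - (lf x + lf y) = 2 * t := by
    intro x y
    have h5 : ∀ u v : ZMod 2, ∃ s : Fin 2, u.val + v.val = (u + v).val + 2 * s.val := by decide
    obtain ⟨s, hs⟩ := h5 x.1 y.1
    obtain ⟨r, hr⟩ := h5 x.2 y.2
    refine ⟨-((s.val : ℕ) : R) - ((r.val : ℕ) : R) * c, ?_⟩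
    show (((x.1 + y.1).val : ℕ) : R) + (((x.2 + y.2).val : ℕ) : R) * c -
      (((x.1.val : ℕ) : R) + ((x.2.val : ℕ) : R) * c +
        (((y.1.val : ℕ) : R) + ((y.2.val : ℕ) : R) * c)) = _
    have hs' := congrArg (fun w : ℕ => (w : R)) hs
    have hr' := congrArg (fun w : ℕ => (w : R)) hr
    push_cast at hs' hr'
    linear_combination (-1 : R) * hs' - c * hr'
  have lf0 : lf 0 = 0 := by
    show (((0 : ZMod 2).val : ℕ) : R) + (((0 : ZMod 2).val : ℕ) : R) * c = 0
    rw [show (0 : ZMod 2).val = 0 from rfl]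
    push_cast
    ring
  let b : Multiplicative (Fin k → ZMod 2 × ZMod 2) → M → M :=
    fun p => a (row (fun j => lf (p.toAdd j)))
  have hb : SmoothAction E b :=
    { one := fun y => by
        show a (row (fun j => lf 0)) y = y
        have : (fun _ : Fin k => lf 0) = 0 := by rw [lf0]; rfl
        rw [this, row_zero]
        exact ha.one y
      mul := fun p q y => by
        show a (row (fun j => lf (p.toAdd j + q.toAdd j))) y = _
        have h3 : (fun j => lf (p.toAdd j + q.toAdd j)) =
            (fun j => lf (p.toAdd j + q.toAdd j) - (lf (p.toAdd j) + lf (q.toAdd j))) +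
              ((fun j => lf (p.toAdd j)) + (fun j => lf (q.toAdd j))) := by
          funext j
          simp only [Pi.add_apply]
          ring
        rw [h3, row_add, row_add, ha.mul, ha.mul]
        have h4 : row (fun j => lf (p.toAdd j + q.toAdd j) -
            (lf (p.toAdd j) + lf (q.toAdd j))) ∈ N := by
          apply row_mem hn N
          intro l
          obtain ⟨t, ht⟩ := hadd (p.toAdd l) (q.toAdd l)
          rw [ht]
          exact Ideal.mul_mem_right _ _ h2
        exact h4 _
      smooth := fun p => ha.smooth _ }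
  have h1 := abelian_dvd (P := Multiplicative (Fin k → ZMod 2 × ZMod 2))
    (fun p => by
      show (4 : ℕ) • p.toAdd = 0
      funext j
      have : ∀ u : ZMod 2 × ZMod 2, (4 : ℕ) • u = 0 := by decide
      exact this _) hb (fun p hp => by
      have h3 : row (fun j => lf (p.toAdd j)) ∈ N := hp
      show p.toAdd = 0
      funext l
      exact hne _ (row_mem_ideal hk N _ h3 l))
  apply hdvd
  have hc : Nat.card (Multiplicative (Fin k → ZMod 2 × ZMod 2)) = 4 ^ k := by
    rw [Nat.card_congr Multiplicative.toAdd]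
    simp
  rw [hc] at h1
  exact_mod_cast h1

end main

end Pool.Agent.N287.ZM
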