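import Pool.Agent.N287.ZM.Blk
import Pool.Agent.H185.ZM.Quat8

/-!
# Elementary groups over noncommutative rings
-/

set_option autoImplicit false

namespace Pool.Agent.N287.NC

open Matrix Module Pool.Agent.H185.ZM Pool.Agent.N287.ZM

section elem

variable {n : ℕ} {O : Type} [Ring O]

/-- the unit `1 + A` for a matrix of square zero -/
def sqz (A : Matrix (Fin n) (Fin n) O) (h : A * A = 0) : (Matrix (Fin n) (Fin n) O)ˣ where
  val := 1 + A
  inv := 1 - A
  val_inv := by rw [mul_sub, mul_one, add_mul, one_mul, h, add_zero]; abel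
  inv_val := by rw [mul_add, mul_one, sub_mul, one_mul, h, sub_zero]; abel

lemma single_sq {i j : Fin n} (h : i ≠ j) (c : O) :
    single i j c * single i j c = 0 := single_mul_single_of_ne _ _ _ _ h.symm _

/-- the elementary matrix -/
def nel {i j : Fin n} (h : i ≠ j) (c : O) : (Matrix (Fin n) (Fin n) O)ˣ :=
  sqz (single i j c) (single_sq h c)

lemma nel_coe {i j : Fin n} (h : i ≠ j) (c : O) :
    ((nel h c : (Matrix (Fin n) (Fin n) O)ˣ) : Matrix (Fin n) (Fin n) O) = 1 + single i j c := rfl

lemma nel_add {i j : Fin n} (h : i ≠ j) (r s : O) : nel h (r + s) = nel h r * nel h s := by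
  apply Units.ext
  rw [Units.val_mul, nel_coe, nel_coe, nel_coe, single_add, mul_add, add_mul, add_mul,
    single_mul_single_of_ne _ _ _ _ h.symm]
  simp
  abel

lemma nel_zero {i j : Fin n} (h : i ≠ j) : nel h (0 : O) = 1 := by
  apply Units.ext
  rw [nel_coe, single_zero, add_zero]
  rfl

lemma nel_inv {i j : Fin n} (h : i ≠ j) (r : O) : (nel h r)⁻¹ = nel h (-r) := by
  rw [inv_eq_iff_mul_eq_one, ← nel_add, add_neg_cancel, nel_zero]

/-- `e_ij(a) e_jl(b) = e_il(ab) e_jl(b) e_ij(a)` -/
lemma nel_comm {i j l : Fin n} (hij : i ≠ j) (hjl : j ≠ l) (hil : i ≠ l) (a b : O) :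
    nel hij a * nel hjl b = nel hil (a * b) * (nel hjl b * nel hij a) := by
  apply Units.ext
  simp only [Units.val_mul, nel_coe]
  simp [mul_add, add_mul, hjl.symm, hil.symm]
  abel

lemma nel_commute {i j k l : Fin n} (hij : i ≠ j) (hkl : k ≠ l) (hjk : j ≠ k) (hil : i ≠ l)
    (a b : O) : nel hij a * nel hkl b = nel hkl b * nel hij a := by
  apply Units.ext
  simp only [Units.val_mul, nel_coe]
  simp [mul_add, add_mul, hjk, hil.symm]
  abel

/-- the braid relation -/
lemma nel_braid {i j : Fin n} (h : i ≠ j) :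
    nel h (1 : O) * nel h.symm (-1) * nel h 1 = nel h.symm (-1) * nel h 1 * nel h.symm (-1) := by
  apply Units.ext
  simp only [Units.val_mul, nel_coe]
  have e1 : single i j (1 : O) * single j i (-1) = single i i (-1) := by simp
  have e2 : single j i (-1 : O) * single i j 1 = single j j (-1) := by simp
  have e3 : single i i (-1 : O) * single i j 1 = single i j (-1) := by simp
  have e4 : single j j (-1 : O) * single j i (-1) = single j i 1 := by simp
  have e5 : single i j (1 : O) * single i j 1 = 0 := single_mul_single_of_ne _ _ _ _ h.symm _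
  have e6 : single j i (-1 : O) * single j i (-1) = 0 := single_mul_single_of_ne _ _ _ _ h _
  have e7 : single i j (-1 : O) = - single i j 1 := by rw [← single_neg]
  have e8 : single j i (1 : O) = - single j i (-1) := by rw [← single_neg, neg_neg]
  simp only [mul_add, add_mul, mul_one, one_mul, e1, e2, e5, e6, e3, e4, add_zero]
  rw [e7, e8]
  abel

/-- conjugation by diagonal matrices -/
lemma diag_nel {i j : Fin n} (h : i ≠ j) (r c : O) (D : (Matrix (Fin n) (Fin n) O)ˣ)
    (d : Fin n → O) (hD : (D : Matrix (Fin n) (Fin n) O) = diagonal d) (hc : d i * r = c * d j) :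
    D * nel h r * D⁻¹ = nel h c := by
  rw [mul_inv_eq_iff_eq_mul]
  apply Units.ext
  simp only [Units.val_mul, nel_coe]
  rw [hD, mul_add, add_mul, mul_one, one_mul]
  congr 1
  ext a b
  rw [diagonal_mul, mul_diagonal, single_apply, single_apply]
  by_cases h1 : i = a ∧ j = b
  · rw [if_pos h1, if_pos h1, ← h1.1, ← h1.2, hc]
  · rw [if_neg h1, if_neg h1]; simp

/-- the elementary group -/
def EN (n : ℕ) (O : Type) [Ring O] : Subgroup (Matrix (Fin n) (Fin n) O)ˣ :=
  Subgroup.closure {g | ∃ (i j : Fin n) (h : i ≠ j) (c : O), nel h c = g}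

lemma nel_mem_EN {i j : Fin n} (h : i ≠ j) (c : O) : nel h c ∈ EN n O :=
  Subgroup.subset_closure ⟨i, j, h, c, rfl⟩

/-- `N` is normalised by the elementary matrices -/
def ENorm (N : Subgroup (Matrix (Fin n) (Fin n) O)ˣ) : Prop :=
  ∀ (i j : Fin n) (h : i ≠ j) (c : O), ∀ x ∈ N, nel h c * x * (nel h c)⁻¹ ∈ N

variable {N : Subgroup (Matrix (Fin n) (Fin n) O)ˣ}

lemma comm_mem (hN : ENorm N) {x : (Matrix (Fin n) (Fin n) O)ˣ} (hx : x ∈ N) {i j : Fin n}
    (h : i ≠ j) (c : O) : x * nel h c * x⁻¹ * (nel h c)⁻¹ ∈ N := by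
  have h1 := N.mul_mem hx (hN i j h c _ (N.inv_mem hx))
  rwa [← mul_assoc, ← mul_assoc] at h1

lemma comm_mem' (hN : ENorm N) {y : (Matrix (Fin n) (Fin n) O)ˣ} (hy : y ∈ N) {i j : Fin n}
    (h : i ≠ j) (c : O) : nel h c * y * (nel h c)⁻¹ * y⁻¹ ∈ N :=
  N.mul_mem (hN i j h c _ hy) (N.inv_mem hy)

lemma nel_comm_eq {i j l : Fin n} (hij : i ≠ j) (hjl : j ≠ l) (hil : i ≠ l) (a b : O) :
    nel hij a * nel hjl b * (nel hij a)⁻¹ * (nel hjl b)⁻¹ = nel hil (a * b) := by
  rw [nel_comm hij hjl hil]
  group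

lemma mem_right (hN : ENorm N) {i j l : Fin n} (hij : i ≠ j) (hjl : j ≠ l) (hil : i ≠ l) {a : O}
    (b : O) (h : nel hij a ∈ N) : nel hil (a * b) ∈ N := by
  rw [← nel_comm_eq hij hjl hil a b]
  exact comm_mem hN h _ _

lemma mem_left (hN : ENorm N) {i j l : Fin n} (hij : i ≠ j) (hjl : j ≠ l) (hil : i ≠ l) (a : O)
    {b : O} (h : nel hjl b ∈ N) : nel hil (a * b) ∈ N := by
  rw [← nel_comm_eq hij hjl hil a b]
  exact comm_mem' hN h _ _

lemma third (hn : 3 ≤ n) (a b : Fin n) : ∃ m, m ≠ a ∧ m ≠ b := by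
  have h1 : ({a, b} : Finset (Fin n)).card < Fintype.card (Fin n) := by
    rw [Fintype.card_fin]
    exact lt_of_le_of_lt Finset.card_le_two (by omega)
  obtain ⟨m, hm⟩ := Finset.exists_mem_notMem_of_card_lt_card
    (s := {a, b}) (t := Finset.univ) (by simpa using h1)
  have h2 := hm.2
  simp only [Finset.mem_insert, Finset.mem_singleton, not_or] at h2
  exact ⟨m, h2⟩

/-- one elementary matrix in a normal subgroup gives all -/
theorem all_mem (hN : ENorm N) (hn : 3 ≤ n) {i j : Fin n} (hij : i ≠ j) {c : O}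
    (h : nel hij c ∈ N) : ∀ (k l : Fin n) (hkl : k ≠ l), nel hkl c ∈ N := by
  have r1 : ∀ (l : Fin n) (hil : i ≠ l), l ≠ j → nel hil c ∈ N := by
    intro l hil hlj
    have h1 := mem_right hN hij (Ne.symm hlj) hil 1 h
    rwa [mul_one] at h1
  have r2 : ∀ (l : Fin n) (hil : i ≠ l), nel hil c ∈ N := by
    intro l hil
    by_cases hlj : l = j
    · subst hlj
      exact h
    · exact r1 l hil hlj
  have r3 : ∀ (k l : Fin n) (hkl : k ≠ l), l ≠ i → nel hkl c ∈ N := by
    intro k l hkl hli
    by_cases hki : k = i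
    · subst hki; exact r2 l hkl
    · have h1 := mem_left hN hki (Ne.symm hli) hkl 1 (r2 l (Ne.symm hli))
      rwa [one_mul] at h1
  intro k l hkl
  by_cases hli : l = i
  · subst hli
    obtain ⟨m, hm1, hm2⟩ := third hn k l
    have h1 := mem_right hN (Ne.symm hm1) hm2 hkl 1 (r3 k m (Ne.symm hm1) hm2)
    rwa [mul_one] at h1
  · exact r3 k l hkl hli

/-- the elements `c` such that all elementary matrices with entry `c` lie in `N` -/
def idl (N : Subgroup (Matrix (Fin n) (Fin n) O)ˣ) : AddSubgroup O where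
  carrier := {c | ∀ (k l : Fin n) (hkl : k ≠ l), nel hkl c ∈ N}
  zero_mem' := fun k l hkl => by rw [nel_zero]; exact N.one_mem
  add_mem' := fun {a b} ha hb k l hkl => by
    rw [nel_add]; exact N.mul_mem (ha k l hkl) (hb k l hkl)
  neg_mem' := fun {a} ha k l hkl => by
    rw [← nel_inv]; exact N.inv_mem (ha k l hkl)

lemma mem_idl {c : O} : c ∈ idl N ↔ ∀ (k l : Fin n) (hkl : k ≠ l), nel hkl c ∈ N := Iff.rfl

lemma idl_right (hN : ENorm N) (hn : 3 ≤ n) {c : O} (hc : c ∈ idl N) (b : O) :
    c * b ∈ idl N := by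
  obtain ⟨m, hm1, hm2⟩ := third hn ⟨0, by omega⟩ ⟨1, by omega⟩
  have h01 : (⟨0, by omega⟩ : Fin n) ≠ ⟨1, by omega⟩ := by simp
  exact all_mem hN hn h01 (mem_right hN (Ne.symm hm1) hm2 h01 b (hc _ _ (Ne.symm hm1)))

lemma idl_left (hN : ENorm N) (hn : 3 ≤ n) {c : O} (hc : c ∈ idl N) (b : O) :
    b * c ∈ idl N := by
  obtain ⟨m, hm1, hm2⟩ := third hn ⟨0, by omega⟩ ⟨1, by omega⟩
  have h01 : (⟨0, by omega⟩ : Fin n) ≠ ⟨1, by omega⟩ := by simp
  exact all_mem hN hn h01 (mem_left hN (Ne.symm hm1) hm2 h01 b (hc _ _ hm2))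

/-- a diagonal matrix in `N` -/
theorem diag_mem_idl (hN : ENorm N) (hn : 3 ≤ n) {i j : Fin n} (hij : i ≠ j)
    {D : (Matrix (Fin n) (Fin n) O)ˣ} (hD : D ∈ N) (d : Fin n → O)
    (hDd : (D : Matrix (Fin n) (Fin n) O) = diagonal d) (r c : O) (hc : d i * r = c * d j) :
    c - r ∈ idl N := by
  apply all_mem hN hn hij
  have h1 := comm_mem hN hD hij r
  rw [diag_nel hij r c D d hDd hc, nel_inv, ← nel_add, ← sub_eq_add_neg] at h1
  exact h1

end elem

section blk

variable {n : ℕ} {O : Type} [Ring O]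

/-- the block `B` placed in rows `< a` and columns `≥ a` -/
def nbl (a : ℕ) (B : Fin n → Fin n → O) : Matrix (Fin n) (Fin n) O :=
  Matrix.of fun i j => if i.val < a ∧ a ≤ j.val then B i j else 0

lemma nbl_apply (a : ℕ) (B : Fin n → Fin n → O) (i j : Fin n) :
    nbl a B i j = if i.val < a ∧ a ≤ j.val then B i j else 0 := rfl

lemma nbl_mul (a : ℕ) (B C : Fin n → Fin n → O) : nbl a B * nbl a C = 0 := by
  ext i j
  rw [Matrix.mul_apply, Matrix.zero_apply]
  apply Finset.sum_eq_zero
  intro l _
  rw [nbl_apply, nbl_apply]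
  by_cases h : l.val < a
  · rw [if_neg (by omega), zero_mul]
  · rw [if_neg (c := l.val < a ∧ a ≤ j.val) (by omega), mul_zero]

lemma nbl_add (a : ℕ) (B C : Fin n → Fin n → O) : nbl a (B + C) = nbl a B + nbl a C := by
  ext i j
  rw [Matrix.add_apply, nbl_apply, nbl_apply, nbl_apply]
  split_ifs
  · rfl
  · simp

/-- the block matrices as units -/
def nblk (a : ℕ) (B : Fin n → Fin n → O) : (Matrix (Fin n) (Fin n) O)ˣ :=
  sqz (nbl a B) (nbl_mul a B B)

lemma nblk_coe (a : ℕ) (B : Fin n → Fin n → O) :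
    ((nblk a B : (Matrix (Fin n) (Fin n) O)ˣ) : Matrix (Fin n) (Fin n) O) = 1 + nbl a B := rfl

lemma nblk_add (a : ℕ) (B C : Fin n → Fin n → O) : nblk a (B + C) = nblk a B * nblk a C := by
  apply Units.ext
  rw [Units.val_mul, nblk_coe, nblk_coe, nblk_coe, nbl_add, add_mul, mul_add, mul_add, nbl_mul]
  simp
  abel

lemma nblk_zero (a : ℕ) : nblk a (0 : Fin n → Fin n → O) = 1 := by
  have h := nblk_add a (0 : Fin n → Fin n → O) 0
  rw [add_zero] at h
  exact mul_eq_left.1 h.symm

lemma nbl_single (a : ℕ) (B : Fin n → Fin n → O) {j l : Fin n} (hj : a ≤ j.val) (hl : a ≤ l.val) :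
    nbl a B * single j l (1 : O) = nbl a (fun i c => if c = l then B i j else 0) := by
  ext i c
  rw [Matrix.mul_apply, Finset.sum_eq_single j]
  · rw [single_apply, nbl_apply, nbl_apply]
    by_cases h1 : l = c
    · subst h1
      rw [if_pos (c := j = j ∧ l = l) ⟨rfl, rfl⟩, mul_one, if_pos (c := l = l) rfl]
      by_cases h2 : i.val < a
      · rw [if_pos ⟨h2, hj⟩, if_pos ⟨h2, hl⟩]
      · rw [if_neg (by omega), if_neg (by omega)]
    · rw [if_neg (c := j = j ∧ l = c) (fun h => h1 h.2), mul_zero,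
        if_neg (c := c = l) (fun h => h1 h.symm)]
      simp
  · intro b _ hb
    rw [single_apply, if_neg (c := j = b ∧ l = c) (fun h => hb h.1.symm), mul_zero]
  · intro h; exact absurd (Finset.mem_univ _) h

lemma single_nbl (a : ℕ) (B : Fin n → Fin n → O) {k i : Fin n} (hk : k.val < a) (hi : i.val < a) :
    single k i (1 : O) * nbl a B = nbl a (fun r c => if r = k then B i c else 0) := by
  ext r c
  rw [Matrix.mul_apply, Finset.sum_eq_single i]
  · rw [single_apply, nbl_apply, nbl_apply]
    by_cases h1 : k = r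
    · subst h1
      rw [if_pos ⟨rfl, rfl⟩, one_mul, if_pos rfl]
      by_cases h2 : a ≤ c.val
      · rw [if_pos ⟨hi, h2⟩, if_pos ⟨hk, h2⟩]
      · rw [if_neg (by omega), if_neg (by omega)]
    · rw [if_neg (fun h => h1 h.1), zero_mul, if_neg (c := r = k) (fun h => h1 h.symm)]
      simp
  · intro b _ hb
    rw [single_apply, if_neg (fun h => hb h.2.symm), zero_mul]
  · intro h; exact absurd (Finset.mem_univ _) h

lemma single_nbl_zero (a : ℕ) (B : Fin n → Fin n → O) {j l : Fin n} (hl : a ≤ l.val) :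
    single j l (1 : O) * nbl a B = 0 := by
  ext r c
  rw [Matrix.mul_apply, Matrix.zero_apply]
  apply Finset.sum_eq_zero
  intro b _
  rw [single_apply, nbl_apply]
  by_cases h : l = b
  · subst h
    rw [if_neg (c := l.val < a ∧ a ≤ c.val) (by omega), mul_zero]
  · rw [if_neg (fun h' => h h'.2), zero_mul]

lemma nbl_single_zero (a : ℕ) (B : Fin n → Fin n → O) {k i : Fin n} (hk : k.val < a) :
    nbl a B * single k i (1 : O) = 0 := by
  ext r c
  rw [Matrix.mul_apply, Matrix.zero_apply]
  apply Finset.sum_eq_zero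
  intro b _
  rw [single_apply, nbl_apply]
  by_cases h : k = b
  · subst h
    rw [if_neg (c := r.val < a ∧ a ≤ k.val) (by omega), zero_mul]
  · rw [if_neg (c := k = b ∧ i = c) (fun h' => h h'.1), mul_zero]

lemma ncol_single (a : ℕ) (C : Fin n → O) {j l : Fin n} (hjl : j ≠ l) :
    nbl a (fun i c => if c = l then C i else 0) * single j l (1 : O) = 0 := by
  ext r c
  rw [Matrix.mul_apply, Matrix.zero_apply]
  apply Finset.sum_eq_zero
  intro b _
  rw [single_apply, nbl_apply]
  by_cases h : j = b
  · subst h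
    rw [if_neg (c := j = l) hjl]
    simp
  · rw [if_neg (c := j = b ∧ l = c) (fun h' => h h'.1), mul_zero]

variable {N : Subgroup (Matrix (Fin n) (Fin n) O)ˣ}

lemma nblk_col (hN : ENorm N) {a : ℕ} {B : Fin n → Fin n → O} (hB : nblk a B ∈ N) {j l : Fin n}
    (hjl : j ≠ l) (hj : a ≤ j.val) (hl : a ≤ l.val) :
    nblk a (fun i c => if c = l then B i j else 0) ∈ N := by
  have h1 := comm_mem hN hB hjl (1 : O)
  have h2 : nblk a B * nel hjl (1 : O) =
      nblk a (fun i c => if c = l then B i j else 0) * (nel hjl 1 * nblk a B) := by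
    apply Units.ext
    simp only [Units.val_mul, nel_coe, nblk_coe]
    simp only [add_mul, mul_add, one_mul, mul_one, nbl_single a B hj hl, single_nbl_zero a B hl,
      add_zero, nbl_mul, ncol_single a (fun i => B i j) hjl]
    abel
  rw [h2] at h1
  have h3 : nblk a (fun i c => if c = l then B i j else 0) * (nel hjl (1 : O) * nblk a B) *
      (nblk a B)⁻¹ * (nel hjl (1 : O))⁻¹ = nblk a (fun i c => if c = l then B i j else 0) := by group
  rwa [h3] at h1

lemma nblk_row (hN : ENorm N) {a : ℕ} {B : Fin n → Fin n → O} (hB : nblk a B ∈ N) {k i : Fin n}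
    (hki : k ≠ i) (hk : k.val < a) (hi : i.val < a) :
    nblk a (fun r c => if r = k then B i c else 0) ∈ N := by
  have h1 := comm_mem' hN hB hki (1 : O)
  have h2 : nel hki (1 : O) * nblk a B =
      nblk a (fun r c => if r = k then B i c else 0) * (nblk a B * nel hki 1) := by
    apply Units.ext
    simp only [Units.val_mul, nel_coe, nblk_coe]
    simp only [add_mul, mul_add, one_mul, mul_one, single_nbl a B hk hi, nbl_single_zero a _ hk,
      add_zero, nbl_mul]
    abel
  rw [h2] at h1
  have h3 : nblk a (fun r c => if r = k then B i c else 0) * (nblk a B * nel hki 1) *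
      (nel hki (1 : O))⁻¹ * (nblk a B)⁻¹ = nblk a (fun r c => if r = k then B i c else 0) := by group
  rwa [h3] at h1

lemma nblk_el {a : ℕ} {k l : Fin n} (hkl : k ≠ l) (hk : k.val < a) (hl : a ≤ l.val) (x : O) :
    nblk a (fun r c => if r = k then (if c = l then x else 0) else 0) = nel hkl x := by
  apply Units.ext
  rw [nblk_coe, nel_coe]
  congr 1
  ext r c
  rw [nbl_apply, single_apply]
  by_cases h1 : k = r ∧ l = c
  · obtain ⟨rfl, rfl⟩ := h1
    rw [if_pos ⟨hk, hl⟩, if_pos rfl, if_pos rfl, if_pos ⟨rfl, rfl⟩]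
  · rw [if_neg h1]
    by_cases h2 : r = k
    · rw [if_pos h2, if_neg (c := c = l) (fun h => h1 ⟨h2.symm, h.symm⟩)]
      simp
    · rw [if_neg h2]
      simp

/-- the entries of a block matrix in `N` lie in the ideal of `N` -/
theorem nblk_ideal (hN : ENorm N) (hn : 3 ≤ n) {a : ℕ} (ha : 1 ≤ a) (ha' : a + 2 ≤ n)
    {B : Fin n → Fin n → O} (hB : nblk a B ∈ N) {i j : Fin n} (hi : i.val < a) (hj : a ≤ j.val) :
    B i j ∈ idl N := by
  obtain ⟨l, hjl, hl⟩ : ∃ l : Fin n, j ≠ l ∧ a ≤ l.val := by
    by_cases h : j.val = a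
    · exact ⟨⟨a + 1, by omega⟩, fun e => by rw [e] at h; simp at h, by show a ≤ a + 1; omega⟩
    · exact ⟨⟨a, by omega⟩, fun e => by rw [e] at h; simp at h, by show a ≤ a; omega⟩
  have h0 := nblk_col hN hB hjl hj hl
  by_cases ha1 : a = 1
  · subst ha1
    have hil : i ≠ l := fun e => by rw [e] at hi; omega
    have h1 : (nblk 1 (fun i c => if c = l then B i j else 0) : (Matrix (Fin n) (Fin n) O)ˣ) =
        nblk 1 (fun r c => if r = i then (if c = l then B i j else 0) else 0) := by
      apply Units.ext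
      rw [nblk_coe, nblk_coe]
      congr 1
      ext r c
      rw [nbl_apply, nbl_apply]
      by_cases h2 : r = i
      · rw [if_pos (c := r = i) h2, h2]
      · have h3 : ¬ (r.val < 1 ∧ 1 ≤ c.val) := by
          intro h4
          apply h2
          apply Fin.ext
          omega
        rw [if_neg h3, if_neg h3]
    rw [h1, nblk_el hil hi hl] at h0
    exact all_mem hN hn hil h0
  · obtain ⟨k, hki, hk⟩ : ∃ k : Fin n, k ≠ i ∧ k.val < a := by
      by_cases h : i.val = 0
      · exact ⟨⟨1, by omega⟩, fun e => by rw [← e] at h; simp at h, by show 1 < a; omega⟩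
      · exact ⟨⟨0, by omega⟩, fun e => by rw [← e] at h; simp at h, by show 0 < a; omega⟩
    have h1 := nblk_row hN h0 hki hk hi
    have hkl : k ≠ l := fun e => by rw [e] at hk; omega
    have h2 := nblk_el (O := O) hkl hk hl (B i j)
    rw [h2] at h1
    exact all_mem hN hn hkl h1

/-- a block matrix is a product of elementary matrices -/
theorem nblk_mem (N : Subgroup (Matrix (Fin n) (Fin n) O)ˣ) {a : ℕ} (B : Fin n × Fin n → O)
    (hB : ∀ (i j : Fin n) (h : i ≠ j), i.val < a → a ≤ j.val → nel h (B (i, j)) ∈ N) :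
    nblk a (fun i j => B (i, j)) ∈ N := by
  have key : ∀ S : Finset (Fin n × Fin n),
      nblk a (fun i j => if (i, j) ∈ S then B (i, j) else 0) ∈ N := by
    intro S
    classical
    induction S using Finset.induction_on with
    | empty =>
      have : (fun i j : Fin n => if (i, j) ∈ (∅ : Finset (Fin n × Fin n)) then B (i, j) else 0) =
          (0 : Fin n → Fin n → O) := by
        funext i j
        simp
      rw [this, nblk_zero]
      exact N.one_mem
    | insert p S hp ih =>
      obtain ⟨k, l⟩ := p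
      have h1 : (fun i j : Fin n => if (i, j) ∈ insert (k, l) S then B (i, j) else 0) =
          (fun i j => if i = k then (if j = l then B (k, l) else 0) else 0) +
            (fun i j : Fin n => if (i, j) ∈ S then B (i, j) else 0) := by
        funext i j
        show _ = (if i = k then (if j = l then B (k, l) else 0) else 0) +
          (if (i, j) ∈ S then B (i, j) else 0)
        by_cases h2 : i = k ∧ j = l
        · obtain ⟨rfl, rfl⟩ := h2
          rw [if_pos (Finset.mem_insert_self _ _), if_pos rfl, if_pos rfl, if_neg hp, add_zero]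
        · have h3 : ((i, j) ∈ insert (k, l) S) ↔ (i, j) ∈ S := by
            rw [Finset.mem_insert]
            constructor
            · rintro (h | h)
              · exact absurd ⟨(Prod.mk.inj h).1, (Prod.mk.inj h).2⟩ h2
              · exact h
            · exact Or.inr
          have h4 : (if i = k then (if j = l then B (k, l) else 0) else 0) = 0 := by
            by_cases h5 : i = k
            · rw [if_pos h5, if_neg (fun h6 => h2 ⟨h5, h6⟩)]
            · rw [if_neg h5]
          rw [h4, zero_add]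
          simp only [h3]
      rw [h1, nblk_add]
      refine N.mul_mem ?_ ih
      by_cases h2 : k.val < a ∧ a ≤ l.val
      · have hkl : k ≠ l := fun e => by rw [e] at h2; omega
        rw [nblk_el hkl h2.1 h2.2]
        exact hB k l hkl h2.1 h2.2
      · have h3 : nblk a (fun i j : Fin n => if i = k then (if j = l then B (k, l) else 0) else 0) =
            1 := by
          apply Units.ext
          rw [nblk_coe, Units.val_one]
          have : nbl a (fun i j : Fin n => if i = k then (if j = l then B (k, l) else 0) else 0) =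
              0 := by
            ext r c
            rw [nbl_apply, Matrix.zero_apply]
            by_cases h5 : r = k
            · by_cases h6 : c = l
              · rw [h5, h6, if_neg h2]
              · rw [if_neg (c := c = l) h6]
                simp
            · rw [if_neg (c := r = k) h5]
              simp
          rw [this, add_zero]
        rw [h3]
        exact N.one_mem
  have h1 := key Finset.univ
  have h2 : (fun i j : Fin n => if (i, j) ∈ (Finset.univ : Finset (Fin n × Fin n)) then B (i, j)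
      else 0) = (fun i j => B (i, j)) := by
    funext i j
    rw [if_pos (Finset.mem_univ _)]
  rwa [h2] at h1

end blk

end Pool.Agent.N287.NC
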