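import Pool.Agent.N287.ZM.NC

/-!
# Smooth actions of elementary groups over noncommutative rings
-/

set_option autoImplicit false

namespace Pool.Agent.N287.NC

open Matrix Module Pool.Agent.H185.ZM Pool.Agent.N287.ZM

open scoped Manifold ContDiff

variable {E : Type} [NormedAddCommGroup E] [NormedSpace ℝ E] [FiniteDimensional ℝ E]
  {M : Type} [TopologicalSpace M] [ChartedSpace E M] [IsManifold 𝓘(ℝ, E) ∞ M]
  {n : ℕ} {O : Type} [Ring O] {Γ : Subgroup (Matrix (Fin n) (Fin n) O)ˣ}

omit [FiniteDimensional ℝ E] [IsManifold 𝓘(ℝ, E) ∞ M] in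
/-- the kernel, as a subgroup of the group of invertible matrices -/
def kN {a : Γ → M → M} (ha : SmoothAction E a) : Subgroup (Matrix (Fin n) (Fin n) O)ˣ :=
  (actKer ha).map Γ.subtype

lemma mem_kN {a : Γ → M → M} (ha : SmoothAction E a) (g : (Matrix (Fin n) (Fin n) O)ˣ) :
    g ∈ kN ha ↔ ∃ h : g ∈ Γ, ∀ y, a ⟨g, h⟩ y = y := by
  constructor
  · rintro ⟨x, hx, rfl⟩
    exact ⟨x.2, hx⟩
  · rintro ⟨h, hg⟩
    exact ⟨⟨g, h⟩, hg, rfl⟩

lemma kN_mem {a : Γ → M → M} (ha : SmoothAction E a) (g : Γ) :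
    (g : (Matrix (Fin n) (Fin n) O)ˣ) ∈ kN ha ↔ ∀ y, a g y = y := by
  rw [mem_kN]
  constructor
  · rintro ⟨_, h⟩
    exact h
  · intro h
    exact ⟨g.2, h⟩

lemma kN_norm (hE : EN n O ≤ Γ) {a : Γ → M → M} (ha : SmoothAction E a) : ENorm (kN ha) := by
  intro i j h c x hx
  rw [mem_kN] at hx
  obtain ⟨hxΓ, hx⟩ := hx
  have h1 : (((⟨nel h c, hE (nel_mem_EN h c)⟩ : Γ) * ⟨x, hxΓ⟩ *
      (⟨nel h c, hE (nel_mem_EN h c)⟩ : Γ)⁻¹ : Γ) : (Matrix (Fin n) (Fin n) O)ˣ) =
      nel h c * x * (nel h c)⁻¹ := rfl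
  rw [← h1, kN_mem]
  intro y
  rw [ha.mul, ha.mul, hx, ← ha.mul, mul_inv_cancel, ha.one]

/-- extension by zero of a function on the positions -/
noncomputable def fB {J : AddSubgroup O} {W : AddSubgroup (O ⧸ J)} {c : ℕ} (f : Pos n c → W)
    (p : Fin n × Fin n) : O :=
  if h : p.1.val < c ∧ c ≤ p.2.val then ((f ⟨p, h⟩ : W) : O ⧸ J).out else 0

lemma out_sub {J : AddSubgroup O} (x y : O ⧸ J) : (x + y).out - (x.out + y.out) ∈ J := by
  have h1 : ((x + y).out : O ⧸ J) = ((x.out + y.out : O) : O ⧸ J) := by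
    rw [QuotientAddGroup.out_eq', QuotientAddGroup.mk_add, QuotientAddGroup.out_eq',
      QuotientAddGroup.out_eq']
  rw [QuotientAddGroup.eq] at h1
  have h2 := J.neg_mem h1
  have h3 : -(-(x + y).out + (x.out + y.out)) = (x + y).out - (x.out + y.out) := by abel
  rwa [h3] at h2

lemma out_zero {J : AddSubgroup O} : (0 : O ⧸ J).out ∈ J := by
  rw [← QuotientAddGroup.eq_zero_iff, QuotientAddGroup.out_eq']

/-- **The counting theorem for block groups.** -/
theorem count (hn : 3 ≤ n) (hE : EN n O ≤ Γ) {c : ℕ} (hc : 1 ≤ c) (hc' : c + 2 ≤ n)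
    [CompactSpace M] [T2Space M] [ConnectedSpace M] {a : Γ → M → M} (ha : SmoothAction E a)
    (h2 : (2 : O) ∈ idl (kN ha)) (W : AddSubgroup (O ⧸ idl (kN ha))) [Finite W] :
    (Nat.card W : ℤ) ^ (c * (n - c)) ∣ 2 ^ finrank ℝ E * Pool.Agent.Helper381.eulerChar M := by
  classical
  have hN := kN_norm hE ha
  have hmem : ∀ B : Fin n × Fin n → O, nblk c (fun i j => B (i, j)) ∈ Γ := fun B =>
    nblk_mem Γ B (fun i j h _ _ => hE (nel_mem_EN h _))
  let b : Multiplicative (Pos n c → W) → M → M :=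
    fun p => a ⟨nblk c (fun i j => fB p.toAdd (i, j)), hmem (fB p.toAdd)⟩
  have hb : SmoothAction E b :=
    { one := fun y => by
        have h3 : nblk c (fun i j => fB (0 : Pos n c → W) (i, j)) ∈ kN ha := by
          refine nblk_mem (kN ha) (fB (0 : Pos n c → W)) ?_
          intro i j h hi hj
          have h4 : fB (0 : Pos n c → W) (i, j) = (0 : O ⧸ idl (kN ha)).out :=
            dif_pos (c := i.val < c ∧ c ≤ j.val) ⟨hi, hj⟩
          rw [h4]
          exact mem_idl.1 out_zero i j h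
        rw [mem_kN] at h3
        exact h3.2 y
      mul := fun p q y => by
        have h3 : (⟨nblk c (fun i j => fB (p.toAdd + q.toAdd) (i, j)),
              hmem (fB (p.toAdd + q.toAdd))⟩ : Γ) =
            ⟨nblk c (fun i j => (fun w : Fin n × Fin n => fB (p.toAdd + q.toAdd) w -
              (fB p.toAdd w + fB q.toAdd w)) (i, j)), hmem (fun w : Fin n × Fin n =>
                fB (p.toAdd + q.toAdd) w - (fB p.toAdd w + fB q.toAdd w))⟩ *
              (⟨nblk c (fun i j => fB p.toAdd (i, j)), hmem (fB p.toAdd)⟩ *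
              ⟨nblk c (fun i j => fB q.toAdd (i, j)), hmem (fB q.toAdd)⟩) := by
          apply Subtype.ext
          show nblk c _ = nblk c _ * (nblk c _ * nblk c _)
          rw [← nblk_add, ← nblk_add]
          congr 1
          funext i j
          simp only [Pi.add_apply]
          abel
        show a ⟨nblk c (fun i j => fB (p.toAdd + q.toAdd) (i, j)),
              hmem (fB (p.toAdd + q.toAdd))⟩ y = _
        rw [h3, ha.mul, ha.mul]
        have h4 : nblk c (fun i j => (fun w : Fin n × Fin n => fB (p.toAdd + q.toAdd) w -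
              (fB p.toAdd w + fB q.toAdd w)) (i, j)) ∈ kN ha := by
          refine nblk_mem (kN ha) (fun w : Fin n × Fin n => fB (p.toAdd + q.toAdd) w -
            (fB p.toAdd w + fB q.toAdd w)) ?_
          intro i j h hi hj
          have h5 : ∀ f : Pos n c → W, fB f (i, j) =
              ((f ⟨(i, j), hi, hj⟩ : W) : O ⧸ idl (kN ha)).out := fun f =>
            dif_pos (c := i.val < c ∧ c ≤ j.val) ⟨hi, hj⟩
          show nel h (fB (p.toAdd + q.toAdd) (i, j) - (fB p.toAdd (i, j) + fB q.toAdd (i, j))) ∈ _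
          rw [h5, h5, h5]
          exact mem_idl.1 (out_sub _ _) i j h
        rw [mem_kN] at h4
        exact h4.2 _
      smooth := fun p => ha.smooth _ }
  have h1 := abelian_dvd (P := Multiplicative (Pos n c → W))
    (fun p => by
      show (4 : ℕ) • p.toAdd = 0
      funext j
      apply Subtype.ext
      show (4 : ℕ) • ((p.toAdd j : W) : O ⧸ idl (kN ha)) = 0
      induction ((p.toAdd j : W) : O ⧸ idl (kN ha)) using QuotientAddGroup.induction_on with
      | _ x =>
        rw [← QuotientAddGroup.mk_nsmul, QuotientAddGroup.eq_zero_iff]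
        have h3 := idl_right hN hn h2 x
        have h4 : (4 : ℕ) • x = 2 * x + 2 * x := by
          rw [nsmul_eq_mul, ← add_mul]
          norm_num
        rw [h4]
        exact AddSubgroup.add_mem _ h3 h3) hb (fun p hp => by
      have h3 : nblk c (fun i j => fB p.toAdd (i, j)) ∈ kN ha := by
        rw [mem_kN]
        exact ⟨_, hp⟩
      show p.toAdd = 0
      funext l
      obtain ⟨⟨i, j⟩, hi, hj⟩ := l
      have h4 := nblk_ideal hN hn hc hc' h3 hi hj
      have h5 : fB p.toAdd (i, j) =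
          ((p.toAdd ⟨(i, j), hi, hj⟩ : W) : O ⧸ idl (kN ha)).out :=
        dif_pos (c := i.val < c ∧ c ≤ j.val) ⟨hi, hj⟩
      rw [h5, ← QuotientAddGroup.eq_zero_iff, QuotientAddGroup.out_eq'] at h4
      exact Subtype.ext h4)
  have hcard : Nat.card (Multiplicative (Pos n c → W)) = Nat.card W ^ (c * (n - c)) := by
    rw [Nat.card_congr Multiplicative.toAdd, Nat.card_fun, card_pos (by omega)]
  rw [hcard] at h1
  exact_mod_cast h1

/-- a finite subgroup of the quotient is a `2`-group -/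
theorem card_two_pow (hn : 3 ≤ n) {N : Subgroup (Matrix (Fin n) (Fin n) O)ˣ} (hN : ENorm N)
    (h2 : (2 : O) ∈ idl N) (W : AddSubgroup (O ⧸ idl N)) [Finite W] :
    ∃ d, Nat.card W = 2 ^ d := by
  have hp : Fact (Nat.Prime 2) := ⟨Nat.prime_two⟩
  have h1 : IsPGroup 2 (Multiplicative W) := fun w => ⟨1, by
    show (2 : ℕ) ^ 1 • w.toAdd = 0
    apply Subtype.ext
    show (2 : ℕ) ^ 1 • ((w.toAdd : W) : O ⧸ idl N) = 0
    rw [pow_one]
    induction ((w.toAdd : W) : O ⧸ idl N) using QuotientAddGroup.induction_on with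
    | _ x =>
      rw [← QuotientAddGroup.mk_nsmul, QuotientAddGroup.eq_zero_iff]
      have h3 := idl_right hN hn h2 x
      rw [nsmul_eq_mul]
      exact_mod_cast h3⟩
  obtain ⟨d, hd⟩ := IsPGroup.iff_card.1 h1
  exact ⟨d, by rw [← hd]; exact Nat.card_congr Multiplicative.ofAdd⟩

/-- the quotient by the ideal is finite, of order `2 ^ d`, with `d` small -/
theorem index_idl (hn : 3 ≤ n) (hE : EN n O ≤ Γ) [CompactSpace M] [T2Space M] [ConnectedSpace M]
    {a : Γ → M → M} (ha : SmoothAction E a) (h2 : (2 : O) ∈ idl (kN ha))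
    (hdvd : ¬ ((2 : ℤ) ^ (4 * (n - 1)) ∣ 2 ^ finrank ℝ E * Pool.Agent.Helper381.eulerChar M)) :
    ∃ d, Nat.card (O ⧸ idl (kN ha)) = 2 ^ d ∧
      ∀ c, 1 ≤ c → c + 2 ≤ n → d * (c * (n - c)) < 4 * (n - 1) := by
  classical
  have hN := kN_norm hE ha
  have key : ∀ W : AddSubgroup (O ⧸ idl (kN ha)), Finite W → ∀ d, Nat.card W = 2 ^ d →
      ∀ c, 1 ≤ c → c + 2 ≤ n → d * (c * (n - c)) < 4 * (n - 1) := by
    intro W hW d hd c hc hc'
    by_contra hcon
    push Not at hcon
    apply hdvd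
    have h1 := count hn hE hc hc' ha h2 W
    rw [hd] at h1
    push_cast at h1
    rw [← pow_mul] at h1
    exact (pow_dvd_pow 2 hcon).trans h1
  have small : ∀ W : AddSubgroup (O ⧸ idl (kN ha)), Finite W → Nat.card W ≤ 8 := by
    intro W hW
    obtain ⟨d, hd⟩ := card_two_pow hn hN h2 W
    have h1 := key W hW d hd 1 le_rfl (by omega)
    have h3 : d < 4 := by
      by_contra h4
      push Not at h4
      have h5 : 4 * (n - 1) ≤ d * (n - 1) := Nat.mul_le_mul_right _ h4
      rw [one_mul] at h1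
      omega
    rw [hd]
    calc 2 ^ d ≤ 2 ^ 3 := Nat.pow_le_pow_right (by norm_num) (by omega)
      _ = 8 := by norm_num
  have htors : ∀ x : O ⧸ idl (kN ha), (2 : ℕ) • x = 0 := by
    intro x
    induction x using QuotientAddGroup.induction_on with
    | _ x =>
      rw [← QuotientAddGroup.mk_nsmul, QuotientAddGroup.eq_zero_iff]
      have h3 := idl_right hN hn h2 x
      rw [nsmul_eq_mul]
      exact_mod_cast h3
  have hfin : Finite (O ⧸ idl (kN ha)) := by
    by_contra hinf
    rw [not_finite_iff_infinite] at hinf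
    obtain ⟨S, hS⟩ := Infinite.exists_subset_card_eq (O ⧸ idl (kN ha)) 9
    let W := AddSubgroup.closure (S : Set (O ⧸ idl (kN ha)))
    have hfg : AddGroup.FG W := (AddGroup.fg_iff_addSubgroup_fg W).2 ⟨S, rfl⟩
    have hW : Finite W := by
      apply AddCommGroup.finite_of_fg_isAddTorsion
      intro w
      rw [isOfFinAddOrder_iff_nsmul_eq_zero]
      exact ⟨2, by norm_num, Subtype.ext (htors _)⟩
    have h1 := small W hW
    have h3 : Nat.card S ≤ Nat.card W :=
      Nat.card_le_card_of_injective (fun s : S => (⟨s.1, AddSubgroup.subset_closure s.2⟩ : W))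
        (fun s t hst => by
          have h4 := congrArg (fun w : W => (w : O ⧸ idl (kN ha))) hst
          exact Subtype.ext h4)
    rw [Nat.card_eq_fintype_card, Fintype.card_coe, hS] at h3
    omega
  have htop : Finite (⊤ : AddSubgroup (O ⧸ idl (kN ha))) := inferInstance
  obtain ⟨d, hd⟩ := card_two_pow hn hN h2 ⊤
  refine ⟨d, ?_, key ⊤ htop d hd⟩
  rw [← hd]
  exact (Nat.card_congr AddSubgroup.topEquiv.toEquiv).symm

/-- a ring of quaternionic type: `u` embeds the quaternion group of order eight -/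
theorem two_mem_of_diag (hn : 3 ≤ n) (u : Q8 →* O) (hz : u q8z = -1)
    {N : Subgroup (Matrix (Fin n) (Fin n) O)ˣ} (hN : ENorm N) (q : Fin n → Q8)
    {D : (Matrix (Fin n) (Fin n) O)ˣ} (hD : D ∈ N)
    (hDd : (D : Matrix (Fin n) (Fin n) O) = diagonal (fun i => u (q i)))
    (h1 : diagonal (fun i => u (q i)) ≠ (1 : Matrix (Fin n) (Fin n) O))
    (h2 : diagonal (fun i => u (q i)) ≠ (-1 : Matrix (Fin n) (Fin n) O)) :
    (2 : O) ∈ idl N := by
  have hinv : ∀ g : Q8, u g * u g⁻¹ = 1 := fun g => by rw [← map_mul, mul_inv_cancel, map_one]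
  have hinv' : ∀ g : Q8, u g⁻¹ * u g = 1 := fun g => by rw [← map_mul, inv_mul_cancel, map_one]
  -- conjugation
  have key : ∀ i j : Fin n, i ≠ j → ∀ r : O, u (q i) * r * u (q j)⁻¹ - r ∈ idl N := by
    intro i j hij r
    refine diag_mem_idl hN hn hij hD (fun i => u (q i)) hDd r _ ?_
    show u (q i) * r = u (q i) * r * u (q j)⁻¹ * u (q j)
    rw [mul_assoc (u (q i) * r), hinv', mul_one]
  by_cases hall : ∀ i j, q i = q j
  · let i0 : Fin n := ⟨0, by omega⟩
    let i1 : Fin n := ⟨1, by omega⟩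
    have h01 : i0 ≠ i1 := by
      intro h
      have := congrArg Fin.val h
      simp [i0, i1] at this
    have hq1 : q i0 ≠ 1 := by
      intro h
      apply h1
      have : (fun i => u (q i)) = fun _ => (1 : O) := by
        funext i
        rw [hall i i0, h, map_one]
      rw [this]
      exact diagonal_one
    have hqz : q i0 ≠ q8z := by
      intro h
      apply h2
      ext i j
      rw [neg_apply, diagonal_apply, one_apply, hall i i0, h, hz]
      split_ifs
      · rfl
      · simp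
    obtain ⟨r, hr⟩ : ∃ r : Q8, q i0 * r * (q i0)⁻¹ = q8z * r := by
      have h3 : ∀ g : Q8, g ≠ 1 → g ≠ q8z → ∃ r : Q8, g * r * g⁻¹ = q8z * r := by decide
      exact h3 _ hq1 hqz
    have h4 := key i0 i1 h01 (u r)
    rw [← hall i0 i1, ← map_mul, ← map_mul, hr, map_mul, hz] at h4
    have h5 := idl_right hN hn h4 (-(u r⁻¹))
    have h6 : (-1 * u r - u r) * -(u r⁻¹) = 2 := by
      have h7 := hinv r
      calc (-1 * u r - u r) * -(u r⁻¹) = 2 * (u r * u r⁻¹) := by noncomm_ring
        _ = 2 := by rw [h7, mul_one]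
    rwa [h6] at h5
  · push Not at hall
    obtain ⟨i, j, hij⟩ := hall
    have hij' : i ≠ j := fun h => hij (by rw [h])
    have h4 := key i j hij' (u (q j))
    rw [mul_assoc, hinv, mul_one] at h4
    have h5 := idl_right hN hn h4 (u (q j)⁻¹)
    have h6 : (u (q i) - u (q j)) * u (q j)⁻¹ = u (q i * (q j)⁻¹) - 1 := by
      rw [sub_mul, hinv, map_mul]
    rw [h6] at h5
    have hg : q i * (q j)⁻¹ ≠ 1 := fun h => hij (mul_inv_eq_one.1 h)
    have h7 : ∀ g : Q8, g ≠ 1 → g = q8z ∨ g * g = q8z := by decide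
    rcases h7 _ hg with h8 | h8
    · rw [h8, hz] at h5
      have h9 := AddSubgroup.neg_mem _ h5
      have h10 : -((-1 : O) - 1) = 2 := by norm_num
      rwa [h10] at h9
    · have h9 := idl_right hN hn h5 (-1 - u (q i * (q j)⁻¹))
      have h10 : (u (q i * (q j)⁻¹) - 1) * (-1 - u (q i * (q j)⁻¹)) = 2 := by
        have h11 : u (q i * (q j)⁻¹) * u (q i * (q j)⁻¹) = -1 := by rw [← map_mul, h8, hz]
        calc (u (q i * (q j)⁻¹) - 1) * (-1 - u (q i * (q j)⁻¹)) =
              1 - u (q i * (q j)⁻¹) * u (q i * (q j)⁻¹) := by noncomm_ring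
          _ = 2 := by rw [h11]; norm_num
      rwa [h10] at h9

/-- modulo the kernel the elementary group is finite if the ideal of the kernel has index at most
two -/
theorem finite_EN (hE : EN n O ≤ Γ) {a : Γ → M → M} (ha : SmoothAction E a)
    (h2 : (2 : O) ∈ idl (kN ha))
    (h1 : ∀ c : O, c ∈ idl (kN ha) ∨ c - 1 ∈ idl (kN ha)) :
    Finite (((EN n O).subgroupOf Γ).map (QuotientGroup.mk' (actKer ha))) := by
  classical
  let q : Γ →* Γ ⧸ actKer ha := QuotientGroup.mk' (actKer ha)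
  have hm : ∀ {i j : Fin n} (h : i ≠ j) (c : O), nel h c ∈ Γ := fun h c => hE (nel_mem_EN h c)
  have hq : ∀ {i j : Fin n} (h : i ≠ j) (c : O), c ∈ idl (kN ha) → q ⟨nel h c, hm h c⟩ = 1 := by
    intro i j h c hc
    apply (QuotientGroup.eq_one_iff _).2
    have h3 := hc i j h
    rw [mem_kN] at h3
    exact h3.2
  have hadd : ∀ {i j : Fin n} (h : i ≠ j) (c d : O), q ⟨nel h (c + d), hm h (c + d)⟩ =
      q ⟨nel h c, hm h c⟩ * q ⟨nel h d, hm h d⟩ := by
    intro i j h c d
    rw [← map_mul]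
    congr 1
    exact Subtype.ext (nel_add h c d)
  let x : Fin n → Fin n → Γ ⧸ actKer ha := fun i j =>
    if h : i ≠ j then q ⟨nel h 1, hm h 1⟩ else 1
  have hx : ∀ {i j : Fin n} (h : i ≠ j), x i j = q ⟨nel h 1, hm h 1⟩ := fun h => dif_pos h
  have hneg : ∀ {i j : Fin n} (h : i ≠ j), q ⟨nel h (-1), hm h (-1)⟩ = q ⟨nel h 1, hm h 1⟩ := by
    intro i j h
    have h3 := hadd h (-1) 2
    rw [hq h 2 h2, mul_one] at h3
    rw [← h3]
    congr 2
    norm_num
  have hrel : Rel x := by
    constructor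
    · intro i j h
      rw [hx h, ← hadd]
      apply hq
      rw [one_add_one_eq_two]
      exact h2
    · intro i j l hij hjl hil
      rw [hx hij, hx hjl, hx hil, ← map_mul, ← map_mul, ← map_mul]
      congr 1
      apply Subtype.ext
      show nel hij 1 * nel hjl 1 = nel hil 1 * (nel hjl 1 * nel hij 1)
      rw [nel_comm hij hjl hil, mul_one]
    · intro i j k l hij hkl hjk hil
      rw [hx hij, hx hkl, ← map_mul, ← map_mul]
      congr 1
      apply Subtype.ext
      exact nel_commute hij hkl hjk hil 1 1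
    · intro i j h
      rw [hx h, hx h.symm]
      have h3 : q (⟨nel h 1, hm h 1⟩ * ⟨nel h.symm (-1), hm h.symm (-1)⟩ * ⟨nel h 1, hm h 1⟩) =
          q (⟨nel h.symm (-1), hm h.symm (-1)⟩ * ⟨nel h 1, hm h 1⟩ *
            ⟨nel h.symm (-1), hm h.symm (-1)⟩) := by
        congr 1
        apply Subtype.ext
        exact nel_braid h
      simp only [map_mul, hneg] at h3
      exact h3
  have h3 := finite_st n x hrel
  have h4 : ((EN n O).subgroupOf Γ).map q ≤
      Subgroup.closure {g | ∃ i j, i ≠ j ∧ x i j = g} := by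
    have h5 : EN n O ≤ ((Subgroup.closure {g | ∃ i j, i ≠ j ∧ x i j = g}).comap q).map
        Γ.subtype := by
      unfold EN
      rw [Subgroup.closure_le]
      rintro _ ⟨i, j, h, c, rfl⟩
      refine ⟨⟨nel h c, hm h c⟩, ?_, rfl⟩
      show q ⟨nel h c, hm h c⟩ ∈ Subgroup.closure {g | ∃ i j, i ≠ j ∧ x i j = g}
      rcases h1 c with hc | hc
      · rw [hq h c hc]; exact one_mem _
      · have h6 : q ⟨nel h c, hm h c⟩ = q ⟨nel h (c - 1), hm h (c - 1)⟩ * q ⟨nel h 1, hm h 1⟩ := by
          rw [← hadd]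
          congr 2
          rw [sub_add_cancel]
        rw [h6, hq h _ hc, one_mul, ← hx h]
        exact Subgroup.subset_closure ⟨i, j, h, rfl⟩
    rintro _ ⟨g, hg, rfl⟩
    obtain ⟨g', hg', he⟩ := h5 hg
    have h6 : g' = g := Subtype.ext he
    rw [← h6]
    exact hg'
  exact (h3.subset h4).to_subtype

/-- finiteness of the image -/
theorem finite_of_EN (hfi : ((EN n O).subgroupOf Γ).index ≠ 0) {K : Subgroup Γ} [K.Normal]
    (hK : Finite (((EN n O).subgroupOf Γ).map (QuotientGroup.mk' K))) : Finite (Γ ⧸ K) := by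
  have h1 := Subgroup.index_map_dvd ((EN n O).subgroupOf Γ) (QuotientGroup.mk'_surjective K)
  have h2 : (((EN n O).subgroupOf Γ).map (QuotientGroup.mk' K)).index ≠ 0 := fun h => by
    rw [h, zero_dvd_iff] at h1
    exact hfi h1
  have h3 := Subgroup.card_mul_index (((EN n O).subgroupOf Γ).map (QuotientGroup.mk' K))
  apply Nat.finite_of_card_ne_zero
  rw [← h3]
  exact Nat.mul_ne_zero Nat.card_pos.ne' h2

end Pool.Agent.N287.NC
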